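import Pool.Agent.helper36.MP.SpecN

/-!
# mp: NP, local existence of natural maps at a pole
-/

set_option autoImplicit false

open Complex Metric Set Filter Topology MeasureTheory

noncomputable section

namespace MPS

/-- holomorphic local inverse with its derivative. -/
theorem NP_inv (U U' : ℂ → ℂ) (a u₀ : ℂ) (ρ : ℝ) (hρ : 0 < ρ)
    (hU : ∀ z ∈ ball a ρ, HasDerivAt U (U' z) z) (h0 : U a = u₀) (h1 : U' a ≠ 0) :
    ∃ r > (0 : ℝ), ∃ ψ : ℂ → ℂ, ψ u₀ = a ∧ ∀ u ∈ ball u₀ r, ψ u ∈ ball a ρ ∧ U (ψ u) = u ∧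
      U' (ψ u) ≠ 0 ∧ HasDerivAt ψ (U' (ψ u))⁻¹ u := by
  subst h0
  have haρ : a ∈ ball a ρ := mem_ball_self hρ
  have hd : DifferentiableOn ℂ U (ball a ρ) := fun z hz => (hU z hz).differentiableAt.differentiableWithinAt
  have hA : AnalyticAt ℂ U a := hd.analyticAt (isOpen_ball.mem_nhds haρ)
  have hder : deriv U a ≠ 0 := by rw [(hU a haρ).deriv]; exact h1
  obtain ⟨ψ, hψ⟩ : ∃ ψ, ψ = hA.hasStrictDerivAt.localInverse _ _ _ hder := ⟨_, rfl⟩
  have hψA : AnalyticAt ℂ ψ (U a) := by rw [hψ]; exact hA.analyticAt_localInverse hder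
  have hψ0 : ψ (U a) = a := by
    rw [hψ]; exact HasStrictFDerivAt.localInverse_apply_image ..
  have hR : ∀ᶠ u in 𝓝 (U a), U (ψ u) = u := by
    rw [hψ]; exact hA.hasStrictDerivAt.eventually_right_inverse hder
  have hB : ∀ᶠ u in 𝓝 (U a), ψ u ∈ ball a ρ := by
    have := hψA.continuousAt
    have h2 : ball a ρ ∈ 𝓝 (ψ (U a)) := by rw [hψ0]; exact isOpen_ball.mem_nhds haρ
    exact this h2
  have hAn : ∀ᶠ u in 𝓝 (U a), AnalyticAt ℂ ψ u := hψA.eventually_analyticAt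
  have hall : ∀ᶠ u in 𝓝 (U a), U (ψ u) = u ∧ ψ u ∈ ball a ρ ∧ AnalyticAt ℂ ψ u :=
    hR.and (hB.and hAn)
  obtain ⟨r, hr, hr2⟩ := Metric.eventually_nhds_iff_ball.mp hall
  refine ⟨r, hr, ψ, hψ0, fun u hu => ?_⟩
  obtain ⟨h2, h3, h4⟩ := hr2 u hu
  have h5 : HasDerivAt (fun v => U (ψ v)) (U' (ψ u) * deriv ψ u) u :=
    (hU _ h3).comp u h4.differentiableAt.hasDerivAt
  have h6 : (fun v => U (ψ v)) =ᶠ[𝓝 u] fun v => v := by
    filter_upwards [isOpen_ball.mem_nhds hu] with v hv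
    exact (hr2 v hv).1
  have h7 : HasDerivAt (fun v : ℂ => v) (U' (ψ u) * deriv ψ u) u := h5.congr_of_eventuallyEq h6.symm
  have h8 : U' (ψ u) * deriv ψ u = 1 := h7.unique (hasDerivAt_id u)
  have h9 : U' (ψ u) ≠ 0 := left_ne_zero_of_mul_eq_one h8
  refine ⟨h3, h2, h9, ?_⟩
  have : (U' (ψ u))⁻¹ = deriv ψ u := by
    field_simp
    rw [h8]
  rw [this]
  exact h4.differentiableAt.hasDerivAt

section
variable {k : ℕ} [NeZero k]

/-- regular part of `(z - b i)^2 B`. -/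
def NP_Q (b g : ZMod k → ℂ) (i : ZMod k) (z : ℂ) : ℂ :=
  1 + g i * (z - b i) +
    (z - b i) ^ 2 * ∑ j ∈ Finset.univ.erase i, (1 / (z - b j) ^ 2 + g j / (z - b j))

theorem NP_Q_eq (b g : ZMod k → ℂ) (i : ZMod k) (z : ℂ) (hz : z ≠ b i) :
    NP_Q b g i z = (z - b i) ^ 2 * BB b g z := by
  have h0 : z - b i ≠ 0 := sub_ne_zero.mpr hz
  unfold NP_Q BB
  rw [← Finset.add_sum_erase _ _ (Finset.mem_univ i), mul_add]
  congr 1
  field_simp

theorem NP_Q_self (b g : ZMod k → ℂ) (i : ZMod k) : NP_Q b g i (b i) = 1 := by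
  unfold NP_Q
  simp

theorem NP_Q_diff (b g : ZMod k → ℂ) (i : ZMod k) (z : ℂ) (hz : ∀ j, j ≠ i → z ≠ b j) :
    DifferentiableAt ℂ (NP_Q b g i) z := by
  unfold NP_Q
  refine DifferentiableAt.add (by fun_prop) (DifferentiableAt.mul (by fun_prop) ?_)
  refine DifferentiableAt.fun_sum fun j hj => ?_
  have h0 : z - b j ≠ 0 := sub_ne_zero.mpr (hz j (Finset.ne_of_mem_erase hj))
  refine DifferentiableAt.add (DifferentiableAt.div (by fun_prop) (by fun_prop) (pow_ne_zero _ h0))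
    (DifferentiableAt.div (by fun_prop) (by fun_prop) h0)

end

theorem NP : NP_stmt := by
  intro k _ b g i hb
  -- good neighbourhood
  have hc : ContinuousAt (NP_Q b g i) (b i) :=
    (NP_Q_diff b g i (b i) (fun j hj h => hj (hb h).symm)).continuousAt
  have e1 : ∀ᶠ z in 𝓝 (b i), NP_Q b g i z ∈ slitPlane := by
    have : slitPlane ∈ 𝓝 (NP_Q b g i (b i)) := by
      rw [NP_Q_self]
      exact isOpen_slitPlane.mem_nhds one_mem_slitPlane
    exact hc this
  have e2 : ∀ᶠ z in 𝓝 (b i), ∀ j, j ≠ i → z ≠ b j := by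
    rw [eventually_all]
    intro j
    by_cases hj : j = i
    · exact Eventually.of_forall fun z h => absurd hj h
    · have hne : b i ≠ b j := fun h => hj (hb h).symm
      filter_upwards [isOpen_ne.mem_nhds hne] with z hz _
      exact hz
  obtain ⟨ρ, hρ, hρ2⟩ := Metric.eventually_nhds_iff_ball.mp (e1.and e2)
  set Q := NP_Q b g i with hQ
  have hQd : ∀ z ∈ ball (b i) ρ, DifferentiableAt ℂ Q z := fun z hz => NP_Q_diff b g i z (hρ2 z hz).2
  -- the square root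
  obtain ⟨s, hs⟩ : ∃ s : ℂ → ℂ, s = fun z => Complex.exp (Complex.log (Q z) / 2) := ⟨_, rfl⟩
  have hsd : ∀ z ∈ ball (b i) ρ, DifferentiableAt ℂ s z := by
    intro z hz
    rw [hs]
    exact (((hQd z hz).clog (hρ2 z hz).1).div_const 2).cexp
  have hs2 : ∀ z ∈ ball (b i) ρ, s z ^ 2 = Q z := by
    intro z hz
    rw [hs]
    simp only
    rw [← Complex.exp_nat_mul]
    have : ((2 : ℕ) : ℂ) * (Complex.log (Q z) / 2) = Complex.log (Q z) := by push_cast; ring
    rw [this, Complex.exp_log (slitPlane_ne_zero (hρ2 z hz).1)]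
  have hs1 : s (b i) = 1 := by
    rw [hs]
    simp [hQ, NP_Q_self]
  have hs0 : ∀ z, s z ≠ 0 := by
    intro z
    rw [hs]
    exact Complex.exp_ne_zero _
  have hbi : b i ∈ ball (b i) ρ := mem_ball_self hρ
  have hsO : DifferentiableOn ℂ s (ball (b i) ρ) := fun z hz => (hsd z hz).differentiableWithinAt
  -- H and its primitive
  have hHd : DifferentiableOn ℂ (dslope s (b i)) (ball (b i) ρ) :=
    (Complex.differentiableOn_dslope (isOpen_ball.mem_nhds hbi)).mpr hsO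
  obtain ⟨K, hK0, hK⟩ := (hHd.isExactOn_ball).with_val_at (b i) 0
  have hU : ∀ z ∈ ball (b i) ρ, HasDerivAt (fun z => (z - b i) * Complex.exp (K z))
      (Complex.exp (K z) * s z) z := by
    intro z hz
    have h1 : HasDerivAt (fun z => z - b i) 1 z := (hasDerivAt_id z).sub_const (b i)
    have h2 : HasDerivAt (fun z => Complex.exp (K z)) (Complex.exp (K z) * dslope s (b i) z) z :=
      (hK z hz).cexp
    have h3 := h1.mul h2
    refine h3.congr_deriv ?_
    have h4 : (z - b i) * dslope s (b i) z = s z - s (b i) := by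
      have := sub_smul_dslope s (b i) z
      simpa using this
    have h5 : (z - b i) * (Complex.exp (K z) * dslope s (b i) z) =
        Complex.exp (K z) * ((z - b i) * dslope s (b i) z) := by ring
    rw [h5, h4, hs1]
    ring
  obtain ⟨r, hr, ψ, hψ0, hψ⟩ := NP_inv _ _ (b i) 0 ρ hρ hU (by simp)
    (mul_ne_zero (Complex.exp_ne_zero _) (hs0 _))
  have hder0 : deriv ψ 0 = 1 := by
    have h1 := (hψ 0 (mem_ball_self hr)).2.2.2.deriv
    rw [h1, hψ0, hK0, hs1]
    simp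
  refine ⟨r, hr, ψ, ⟨hr, ?_, hψ0, ?_, ?_, ?_⟩, hder0⟩
  · intro u hu
    exact (hψ u hu).2.2.2.differentiableAt.differentiableWithinAt
  · rw [hder0]; exact one_ne_zero
  · intro u hu hu0 j hj
    obtain ⟨h1, h2, h3, h4⟩ := hψ u hu
    by_cases hji : j = i
    · subst hji
      rw [hj] at h2
      simp at h2
      exact hu0 h2.symm
    · exact (hρ2 _ h1).2 j hji hj
  · intro u hu hu0
    obtain ⟨h1, h2, h3, h4⟩ := hψ u hu
    have h5 : ψ u ≠ b i := by
      intro h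
      rw [h] at h2
      simp at h2
      exact hu0 h2.symm
    have h6 := NP_Q_eq b g i (ψ u) h5
    rw [← hQ, ← hs2 _ h1] at h6
    rw [h4.deriv]
    have h7 : u ^ 2 = (ψ u - b i) ^ 2 * Complex.exp (K (ψ u)) ^ 2 := by
      conv_lhs => rw [← h2]
      ring
    rw [h7]
    have h8 : Complex.exp (K (ψ u)) ≠ 0 := Complex.exp_ne_zero _
    have h9 : s (ψ u) ≠ 0 := hs0 _
    calc (ψ u - b i) ^ 2 * Complex.exp (K (ψ u)) ^ 2 * (Complex.exp (K (ψ u)) * s (ψ u))⁻¹ ^ 2 *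
          BB b g (ψ u)
        = ((ψ u - b i) ^ 2 * BB b g (ψ u)) * (Complex.exp (K (ψ u)) ^ 2 *
          (Complex.exp (K (ψ u)) * s (ψ u))⁻¹ ^ 2) := by ring
      _ = 1 := by
        rw [← h6]
        field_simp

end MPS
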